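import Mathlib
import Pool.Agent.V11278.FaceRankF

/-!
# MP_492a05_co: a face lattice is determined by all its ranks but one (helper278)

Definitions (from `Pool.Agent.V11278.FaceRankE` and `FaceRankF`):
* `hull S` is the polytope `conv S` of a finite set `S` of points of `ℝ^n`;
* `IsFace P F`: `F` is the set of the points of `P` on a hyperplane `f = c` with `f ≤ c` on `P`
  (this includes `∅` and `P`); `FaceLat P` is the poset of all faces, ordered by inclusion;
* `frank F = dim F + 1`, where the empty face has dimension `-1`;
* `IsEulerian Q σ`: `Q` is a finite graded poset with least and greatest element and rank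
  function `σ` in which every interval `[a, b]` with `a < b` has as many elements of even rank as of
  odd rank.
-/

namespace Pool.Agent.Results.MP_492a05_co.OneRankMissing

open Pool.Agent.V11278.FaceRank

/-- Let `P` be a polytope of any dimension `d` (simple, simplicial, or neither), let
`1 ≤ r ≤ d - 2`, and let `Q` be an Eulerian poset whose elements of dimension `≠ r`
(rank `≠ r + 1`) are, through the order isomorphism `φ` that preserves the rank, the faces of `P` of
dimension `≠ r`. Then `φ` extends to an isomorphism of `Q` with the face lattice of `P`. -/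
theorem result (n : ℕ) (S : Finset (Fin n → ℝ)) (r : ℕ) (hr : 1 ≤ r)
    (hr' : r + 2 ≤ Module.finrank ℝ (vectorSpan ℝ (hull S)))
    (Q : Type) [PartialOrder Q] (σ : Q → ℕ) (hQ : IsEulerian Q σ)
    (φ : {q : Q // σ q ≠ r + 1} ≃o {F : FaceLat (hull S) // frank F.1 ≠ r + 1})
    (hφ : ∀ q, frank (φ q).1.1 = σ q.1) :
    ∃ ψ : Q ≃o FaceLat (hull S), ∀ q, ψ q.1 = (φ q).1 :=
  main S r hr hr' Q σ hQ φ hφ

end Pool.Agent.Results.MP_492a05_co.OneRankMissing
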